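import Pool.Agent.Helper19.PM.Goals
import Pool.Agent.Helper73.VN.TAYF

/-!
# Packet T3-TAYFW (MP_a41896_nt): a moving centre in the Taylor frame
(adapted from Helper73/VN/TAYF.lean)
-/

set_option autoImplicit false

open MvPolynomial

namespace Pool.Agent.Helper30.PM

open WeierstrassCurve Height
open Pool.Agent.Helper29.BL Pool.Agent.Helper92.Ru Pool.Agent.Helper42.SG
open Pool.Agent.Helper65.SG
open Pool.Agent.Helper68.VN hiding xs Good nz
open Pool.Agent.Helper62.SGB (plc_mul plc_prod plc_cst plc_Mv plc_one plc_pos le_prod_one)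
open Pool.Agent.Helper73.VN.TAYF (Gd Gd.mul Gd.mono Gd.const Gd.one Gd.pow Gd.prod Gd.sum)
open Pool.Agent.Helper19.PM (rhoW radW)

/-- the number of monomials -/
lemma card_supp {K : Type} [Field K] {σ : Type} [Fintype σ] (f : MvPolynomial σ K) (D : ℕ)
    (h : ∀ i, degreeOf i f ≤ D) : f.support.card ≤ (D + 1) ^ Fintype.card σ := by
  classical
  have h1 : ∀ g ∈ f.support, ∀ i, g i ≤ D := fun g hg i => (degreeOf_le_iff.1 (h i)) g hg
  have h2 : f.support.card ≤ (Finset.univ : Finset (σ → Fin (D + 1))).card := by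
    refine Finset.card_le_card_of_injOn (fun g i => (⟨min (g i) D, by omega⟩ : Fin (D + 1)))
      (fun _ _ => Finset.mem_coe.2 (Finset.mem_univ _)) ?_
    intro g hg g' hg' hgg
    ext i
    have h3 := congrArg Fin.val (congrFun hgg i)
    simp only at h3
    have h4 := h1 g hg i
    have h5 := h1 g' hg' i
    omega
  refine h2.trans (le_of_eq ?_)
  rw [Finset.card_univ, Fintype.card_fun, Fintype.card_fin]

theorem t_TAYFW (hF : FRPS) : Pool.Agent.Helper19.PM.TAYFW := by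
  classical
  intro K _ _ σ _ _ W J _ w B hB
  -- constants
  obtain ⟨D, hD⟩ : ∃ D : ℕ, D = ∑ k, ∑ i, w k i := ⟨_, rfl⟩
  have hwD : ∀ k i, w k i ≤ D := by
    intro k i
    rw [hD]
    exact (Finset.single_le_sum (f := fun i => w k i) (fun _ _ => Nat.zero_le _)
      (Finset.mem_univ i)).trans (Finset.single_le_sum (f := fun k => ∑ i, w k i)
      (fun _ _ => Nat.zero_le _) (Finset.mem_univ k))
  obtain ⟨n0, hn0⟩ : ∃ n0 : ℕ, n0 = (D + 1) ^ Fintype.card σ := ⟨_, rfl⟩
  obtain ⟨a, ha⟩ : ∃ a : ℕ, a = 1 + 2 * D := ⟨_, rfl⟩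
  obtain ⟨Gb, hGb⟩ : ∃ Gb : AbsoluteValue K ℝ → ℝ, ∀ v, Gb v = ∏ i, bet (W i) v :=
    ⟨_, fun _ => rfl⟩
  have hcst : PlC (K := K) fun v => c2 v := plc_cst (by norm_num)
  have hpow : ∀ m : ℕ, PlC (K := K) fun v => c2 v ^ m := by
    intro m
    have := plc_prod (K := K) (Finset.range m) (fun _ v => c2 v) (fun _ _ => hcst)
    simpa using this
  have pGb : PlC Gb := by
    have := plc_prod (K := K) Finset.univ (fun i v => bet (W i) v)
      (fun i _ => ⟨fun v => one_le_bet _ _, FS_log_bet _⟩)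
    have e : Gb = fun v => ∏ i, bet (W i) v := funext hGb
    rw [e]; exact this
  obtain ⟨m, hm⟩ : ∃ m : ℕ, m = 6 + (1 + (1 + (Fintype.card σ * a + n0 + 1))) := ⟨_, rfl⟩
  refine ⟨fun v => B v * (c2 v ^ m * Gb v),
    plc_mul hB (plc_mul (hpow m) pGb), fun v => ?_, ?_⟩
  · have h1 := hB.one_le v
    have h2 := (plc_mul (hpow m) pGb).one_le v
    exact le_mul_of_one_le_right (by linarith) h2
  intro n f G ξ ψ X Ψ hdeg hG1 hGc hT hψ hne v j k
  obtain ⟨b, hb⟩ : ∃ b : ℝ, b = B v * (c2 v ^ m * Gb v) := ⟨_, rfl⟩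
  have hc := one_le_c2 v
  have hc0 : 0 < c2 v := by linarith
  have hB1 := hB.one_le v
  have hGb1 := pGb.one_le v
  have hG := hG1 j v
  have hb1 : 1 ≤ b := by
    rw [hb]
    exact (plc_mul hB (plc_mul (hpow m) pGb)).one_le v
  have hb0 : 0 < b := by linarith
  show NPS v (radW w f (B v * (c2 v ^ m * Gb v)) v ξ) (aeval (X j) (f j k))
    (rhoW w (f j) v (ξ j) * (B v * (c2 v ^ m * Gb v) * G j v * ∏ i, Mv v (ξ j i) ^ w k i))
  rw [← hb]
  -- products of the `Mv`
  have hM1 : ∀ j i, 1 ≤ Mv v (ξ j i) := fun j i => one_le_Mv v _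
  have hPD : ∀ j k, 0 < ∏ i, Mv v (ξ j i) ^ w k i := fun j k =>
    Finset.prod_pos fun i _ => by have := hM1 j i; positivity
  -- `ρ`
  have hbdd : ∀ j, BddAbove (Set.range fun k => v (eval (ξ j) (f j k)) / ∏ i, Mv v (ξ j i) ^ w k i) :=
    fun j => Set.finite_range _ |>.bddAbove
  have hSle : ∀ j k, v (eval (ξ j) (f j k)) / ∏ i, Mv v (ξ j i) ^ w k i ≤
      ⨆ k, v (eval (ξ j) (f j k)) / ∏ i, Mv v (ξ j i) ^ w k i := fun j k =>
    le_ciSup (hbdd j) k
  have hρ0 : ∀ j, 0 < rhoW w (f j) v (ξ j) := by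
    intro j
    obtain ⟨k, hk⟩ := hne j
    exact lt_min one_pos (lt_of_lt_of_le (div_pos (v.pos hk) (hPD j k)) (hSle j k))
  have hρ1 : ∀ j, rhoW w (f j) v (ξ j) ≤ 1 := fun j => min_le_left _ _
  -- the frame
  have hr : ∀ h, 0 < radW w f b v ξ h := by
    intro h
    unfold radW
    have h1 : 0 < Mv v (ξ h.1 h.2) := Mv_pos v _
    exact div_pos (hρ0 _) (by positivity)
  obtain ⟨NF, -⟩ := hF K v (Fin n × σ) (radW w f b v ξ) hr
  have alg : ∀ c : K, (MvPowerSeries.C c : MvPowerSeries (Fin n × σ) K) =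
      algebraMap K (MvPowerSeries (Fin n × σ) K) c := by
    intro c
    rw [MvPowerSeries.algebraMap_apply]
    rfl
  set ρ : ℝ := rhoW w (f j) v (ξ j) with hρ
  have hρ0' : 0 ≤ ρ := (hρ0 j).le
  -- the variables
  have hX : ∀ i, Gd v (NPS v (radW w f b v ξ)) ρ (X j i) (ξ j i) (c2 v) (Mv v (ξ j i)) := by
    intro i
    have hM := hM1 j i
    have hM0 : 0 < Mv v (ξ j i) := by linarith
    have hbi : bet (W i) v ≤ Gb v := by
      rw [hGb]
      exact le_prod_one Finset.univ (fun i => bet (W i) v) (fun i _ => one_le_bet _ _)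
        (Finset.mem_univ i)
    obtain ⟨-, -, -, hq, -⟩ := tay_est (W i) v (Gb v) hbi (ξ j i) (ψ j i) (hψ j i)
    have hu : NPS v (radW w f b v ξ) (X j i - algebraMap K _ (ξ j i)) (ρ * Mv v (ξ j i)) := by
      have e : X j i - algebraMap K _ (ξ j i) =
          algebraMap K _ (4 * ψ j i ^ 2) * MvPowerSeries.X (j, i) := by
        rw [hT.eqX, alg, alg]; ring
      rw [e]
      refine NF.mono _ _ _ (NF.mul _ _ _ _ (NF.const _) (nps_X hr (j, i))) ?_
      have h1 : radW w f b v ξ (j, i) = ρ / (b * Mv v (ξ j i) ^ 2) := rfl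
      rw [h1]
      have h2 : c2 v ^ 6 * Gb v ≤ b := by
        rw [hb, hm]
        calc c2 v ^ 6 * Gb v = 1 * (c2 v ^ 6 * Gb v) := by ring
          _ ≤ B v * (c2 v ^ (6 + (1 + (1 + (Fintype.card σ * a + n0 + 1)))) * Gb v) := by
            gcongr
            omega
      calc v (4 * ψ j i ^ 2) * (ρ / (b * Mv v (ξ j i) ^ 2))
          ≤ (c2 v ^ 6 * Gb v * Mv v (ξ j i) ^ 3) * (ρ / (b * Mv v (ξ j i) ^ 2)) := by
            gcongr
        _ ≤ (b * Mv v (ξ j i) ^ 3) * (ρ / (b * Mv v (ξ j i) ^ 2)) := by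
            gcongr
        _ = ρ * Mv v (ξ j i) := by
            field_simp
    refine ⟨hc, hM0.le, le_max_right _ _, ?_, ?_⟩
    · have e : X j i = (X j i - algebraMap K _ (ξ j i)) + algebraMap K _ (ξ j i) := by ring
      rw [e]
      refine frame_add NF (NF.mono _ _ _ hu ?_) (NF.mono _ _ _ (NF.const _) (le_max_right _ _))
      have := hρ1 j
      calc ρ * Mv v (ξ j i) ≤ 1 * Mv v (ξ j i) := by gcongr
        _ = _ := one_mul _
    · refine NF.mono _ _ _ hu ?_
      calc ρ * Mv v (ξ j i) = 1 * ρ * Mv v (ξ j i) := by ring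
        _ ≤ c2 v * ρ * Mv v (ξ j i) := by gcongr
  -- the monomials
  have hmon : ∀ g ∈ (f j k).support, Gd v (NPS v (radW w f b v ξ)) ρ
      (algebraMap K _ (coeff g (f j k)) * ∏ i, X j i ^ g i) (coeff g (f j k) * ∏ i, ξ j i ^ g i)
      (c2 v ^ (1 + Fintype.card σ * a)) (G j v * ∏ i, Mv v (ξ j i) ^ w k i) := by
    intro g hg
    have hgw : ∀ i, g i ≤ w k i := fun i => (degreeOf_le_iff.1 (hdeg j k i)) g hg
    have hgD : ∀ i, g i ≤ D := fun i => (hgw i).trans (hwD k i)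
    have h1 := Gd.prod NF hρ0' Finset.univ (fun i => X j i ^ g i) (fun i => ξ j i ^ g i)
      (fun i => (c2 v * c2 v) ^ g i) (fun i => Mv v (ξ j i) ^ g i)
      (fun i => Gd.pow NF hρ0' (hX i) (g i))
    have h2 := Gd.mul NF hρ0' (Gd.const (A := MvPowerSeries (Fin n × σ) K) NF hρ0'
      (coeff g (f j k))) h1
    refine h2.mono NF hρ0' ?_ ?_
    · rw [one_mul, pow_add, pow_one]
      refine mul_le_mul_of_nonneg_left ?_ hc0.le
      calc ∏ i, (c2 v * (c2 v * c2 v) ^ g i) ≤ ∏ _i : σ, c2 v ^ a := by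
            refine Finset.prod_le_prod (fun i _ => by positivity) fun i _ => ?_
            have e : c2 v * (c2 v * c2 v) ^ g i = c2 v ^ (1 + 2 * g i) := by
              rw [pow_add, pow_one, pow_mul, pow_two]
            rw [e, ha]
            exact pow_le_pow_right₀ hc (by have := hgD i; omega)
        _ = c2 v ^ (Fintype.card σ * a) := by
            rw [Finset.prod_const, Finset.card_univ, ← pow_mul, mul_comm]
    · have h3 : v (coeff g (f j k)) ≤ G j v := hGc j k g v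
      have h6 : ∏ i, Mv v (ξ j i) ^ g i ≤ ∏ i, Mv v (ξ j i) ^ w k i :=
        Finset.prod_le_prod (fun i _ => by have := Mv_pos v (ξ j i); positivity)
          fun i _ => pow_le_pow_right₀ (hM1 j i) (hgw i)
      have h7 : 0 ≤ ∏ i, Mv v (ξ j i) ^ g i :=
        Finset.prod_nonneg fun i _ => by have := Mv_pos v (ξ j i); positivity
      exact mul_le_mul h3 h6 h7 (by linarith)
  have hsum := Gd.sum NF hρ0' (f j k).support
    (fun g => algebraMap K _ (coeff g (f j k)) * ∏ i, X j i ^ g i)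
    (fun g => coeff g (f j k) * ∏ i, ξ j i ^ g i)
    (c2 v ^ (1 + Fintype.card σ * a)) (G j v * ∏ i, Mv v (ξ j i) ^ w k i)
    (one_le_pow₀ hc) (mul_nonneg (by linarith) (hPD j k).le) hmon
  have e1 : ∑ g ∈ (f j k).support, algebraMap K (MvPowerSeries (Fin n × σ) K) (coeff g (f j k)) *
      ∏ i, X j i ^ g i = aeval (X j) (f j k) := by
    rw [aeval_def, eval₂_eq']
  have e2 : ∑ g ∈ (f j k).support, coeff g (f j k) * ∏ i, ξ j i ^ g i = eval (ξ j) (f j k) := by
    rw [eval_eq']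
  rw [e1, e2] at hsum
  -- the value
  obtain ⟨T', hT'⟩ : ∃ T' : ℝ, T' = c2 v ^ (f j k).support.card *
    (G j v * ∏ i, Mv v (ξ j i) ^ w k i) := ⟨_, rfl⟩
  rw [← hT'] at hsum
  have hPD' := hPD j k
  have hval : v (eval (ξ j) (f j k)) ≤ ρ * T' := by
    rcases le_total 1 (⨆ k, v (eval (ξ j) (f j k)) / ∏ i, Mv v (ξ j i) ^ w k i) with h | h
    · have h1 : ρ = 1 := min_eq_left h
      rw [h1, one_mul]
      exact hsum.vp
    · have h1 : ρ = ⨆ k, v (eval (ξ j) (f j k)) / ∏ i, Mv v (ξ j i) ^ w k i := min_eq_right h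
      have h2 : v (eval (ξ j) (f j k)) / ∏ i, Mv v (ξ j i) ^ w k i ≤ ρ := by
        rw [h1]; exact hSle j k
      rw [div_le_iff₀ hPD'] at h2
      refine h2.trans (mul_le_mul_of_nonneg_left ?_ hρ0')
      rw [hT']
      have h3 : 1 ≤ c2 v ^ (f j k).support.card * G j v :=
        one_le_mul_of_one_le_of_one_le (one_le_pow₀ hc) hG
      calc ∏ i, Mv v (ξ j i) ^ w k i = 1 * ∏ i, Mv v (ξ j i) ^ w k i := (one_mul _).symm
        _ ≤ (c2 v ^ (f j k).support.card * G j v) * ∏ i, Mv v (ξ j i) ^ w k i :=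
          mul_le_mul_of_nonneg_right h3 hPD'.le
        _ = _ := by ring
  have hfin : NPS v (radW w f b v ξ) (aeval (X j) (f j k))
      (c2 v * (c2 v ^ (1 + Fintype.card σ * a) * ρ * T')) := by
    have e : aeval (X j) (f j k) = (aeval (X j) (f j k) - algebraMap K _ (eval (ξ j) (f j k))) +
        algebraMap K _ (eval (ξ j) (f j k)) := by ring
    rw [e]
    refine frame_add NF hsum.nD (NF.mono _ _ _ (NF.const _) ?_)
    have hT0 := hsum.T0
    calc v (eval (ξ j) (f j k)) ≤ 1 * ρ * T' := by rw [one_mul]; exact hval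
      _ ≤ c2 v ^ (1 + Fintype.card σ * a) * ρ * T' := by
        gcongr
        exact one_le_pow₀ hc
  refine NF.mono _ _ _ hfin ?_
  have hsc : (f j k).support.card ≤ n0 := by
    rw [hn0]
    exact card_supp (f j k) D fun i => (hdeg j k i).trans (hwD k i)
  rw [hT', hb]
  calc c2 v * (c2 v ^ (1 + Fintype.card σ * a) * ρ *
        (c2 v ^ (f j k).support.card * (G j v * ∏ i, Mv v (ξ j i) ^ w k i)))
      = ρ * (((1 * (c2 v ^ (1 + (1 + Fintype.card σ * a) + (f j k).support.card) * 1)) *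
          G j v) * ∏ i, Mv v (ξ j i) ^ w k i) := by
        rw [pow_add (c2 v) (1 + (1 + Fintype.card σ * a)) (f j k).support.card,
          pow_add (c2 v) 1 (1 + Fintype.card σ * a), pow_one]; ring
    _ ≤ ρ * (B v * (c2 v ^ m * Gb v) * G j v * ∏ i, Mv v (ξ j i) ^ w k i) := by
        have h9 : 0 ≤ ∏ i, Mv v (ξ j i) ^ w k i := hPD'.le
        have h10 : 0 ≤ G j v := by linarith
        gcongr
        rw [hm]; omega

end Pool.Agent.Helper30.PM
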